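import Pool.Agent.Helper63.Sey2.Goals

/-!
# Packet SEY2-E1 (MP_b6b2d3_co)
-/

set_option autoImplicit false

namespace Pool.Agent.Helper35.Sey2

open Pool.Agent.Helper63.Sey2

theorem er_eq_some {V : Type} {q : ℕ} {S : Set V} {c c' : Fin q} (hcc : c ≠ c')
    {φ : V → Option (Fin q)} {u : V} : er S c φ u = some c' ↔ φ u = some c' := by
  unfold er
  split_ifs with h
  · constructor
    · intro h'
      cases h'
    · intro h'
      rw [h'] at h
      exact absurd (Option.some.inj h.2).symm hcc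
  · rfl

theorem er_out {V : Type} {q : ℕ} {S : Set V} {c : Fin q} {φ : V → Option (Fin q)} {u : V}
    (hu : u ∉ S) : er S c φ u = φ u := by
  unfold er
  rw [if_neg (fun h => hu h.1)]

theorem er_some_of_eq {V : Type} {q : ℕ} {S : Set V} {c c' : Fin q} (hcc : c ≠ c')
    {φ φ' : V → Option (Fin q)} (h : er S c φ = er S c φ') (u : V) :
    φ u = some c' ↔ φ' u = some c' := by
  rw [← er_eq_some (S := S) hcc (φ := φ), h, er_eq_some hcc]

theorem arith {k K' M N x s : ℕ} (hM : M = 256 * 4 ^ (4 * K') * (k + 1) ^ (4 * (4 * K') ^ 2))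
    (hN : M < N) (hs : s ≤ (x + 1) ^ (4 * K'))
    (hx : x ^ (2 * (4 * K')) ≤ (k + 1) ^ ((2 * (4 * K')) * (2 * (4 * K'))) * N) :
    16 * s ≤ N := by
  set m := 4 * K' with hm
  have e1 : 2 * m * (2 * m) = 4 * m ^ 2 := by ring
  rw [e1] at hx
  have hN1 : 1 ≤ N := by omega
  have h1 : (x + 1) ^ (2 * m) ≤ 4 ^ m * ((k + 1) ^ (4 * m ^ 2) * N) := by
    rcases Nat.eq_zero_or_pos x with h0 | h0
    · subst h0
      have ha : 1 ≤ 4 ^ m := Nat.one_le_pow _ _ (by norm_num)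
      have hb : 1 ≤ (k + 1) ^ (4 * m ^ 2) := Nat.one_le_pow _ _ (by omega)
      calc (0 + 1) ^ (2 * m) = 1 := by simp
        _ ≤ 4 ^ m * ((k + 1) ^ (4 * m ^ 2) * N) := by
          exact Nat.mul_pos ha (Nat.mul_pos hb hN1)
    · calc (x + 1) ^ (2 * m) ≤ (2 * x) ^ (2 * m) := Nat.pow_le_pow_left (by omega) _
        _ = 4 ^ m * x ^ (2 * m) := by
          rw [mul_pow, pow_mul]
          norm_num
        _ ≤ 4 ^ m * ((k + 1) ^ (4 * m ^ 2) * N) := Nat.mul_le_mul_left _ hx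
  have h2 : (16 * (x + 1) ^ m) ^ 2 ≤ N ^ 2 := by
    calc (16 * (x + 1) ^ m) ^ 2 = 256 * (x + 1) ^ (2 * m) := by
          rw [mul_pow, ← pow_mul, mul_comm m 2]
          norm_num
      _ ≤ 256 * (4 ^ m * ((k + 1) ^ (4 * m ^ 2) * N)) := Nat.mul_le_mul_left _ h1
      _ = M * N := by rw [hM]; ring
      _ ≤ N * N := Nat.mul_le_mul_right _ hN.le
      _ = N ^ 2 := by ring
  have h3 : 16 * (x + 1) ^ m ≤ N := (Nat.pow_le_pow_iff_left (by norm_num)).1 h2
  exact le_trans (Nat.mul_le_mul_left _ hs) h3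

theorem few {V : Type} [Fintype V] {q K' : ℕ} {S : Set V} (hK' : 1 ≤ K')
    (hS : Nat.card {u // u ∈ S} ≤ K' * q) (φ : V → Option (Fin q)) :
    4 * Nat.card {c : Fin q // ¬ Nat.card {u // u ∈ S ∧ φ u = some c} < 4 * K'} ≤ q := by
  classical
  have hcard : ∀ c, Nat.card {u // u ∈ S ∧ φ u = some c} =
      (Finset.univ.filter fun u => u ∈ S ∧ φ u = some c).card := fun c => by
    rw [Nat.card_eq_fintype_card, Fintype.card_subtype]
  have hcardS : Nat.card {u // u ∈ S} = (Finset.univ.filter fun u => u ∈ S).card := by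
    rw [Nat.card_eq_fintype_card, Fintype.card_subtype]
  set B : Finset (Fin q) :=
    Finset.univ.filter fun c => ¬ Nat.card {u // u ∈ S ∧ φ u = some c} < 4 * K' with hB
  have hBc : Nat.card {c : Fin q // ¬ Nat.card {u // u ∈ S ∧ φ u = some c} < 4 * K'} = B.card := by
    rw [Nat.card_eq_fintype_card, Fintype.card_subtype]
  rw [hBc]
  have h1 : B.card * (4 * K') ≤ ∑ c ∈ B, (Finset.univ.filter fun u => u ∈ S ∧ φ u = some c).card := by
    rw [← smul_eq_mul]
    refine Finset.card_nsmul_le_sum _ _ _ fun c hc => ?_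
    rw [hB, Finset.mem_filter] at hc
    rw [← hcard]
    exact not_lt.1 hc.2
  have h2 : ∑ c ∈ B, (Finset.univ.filter fun u => u ∈ S ∧ φ u = some c).card ≤
      (Finset.univ.filter fun u => u ∈ S).card := by
    rw [← Finset.card_biUnion]
    · refine Finset.card_le_card fun u hu => ?_
      rw [Finset.mem_biUnion] at hu
      obtain ⟨c, _, hc⟩ := hu
      rw [Finset.mem_filter] at hc ⊢
      exact ⟨hc.1, hc.2.1⟩
    · intro c _ c' _ hcc
      rw [Function.onFun, Finset.disjoint_left]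
      intro u hu hu'
      rw [Finset.mem_filter] at hu hu'
      exact hcc (Option.some.inj (hu.2.2.symm.trans hu'.2.2))
  have h3 : B.card * (4 * K') ≤ K' * q := by
    rw [hcardS] at hS
    omega
  have h4 : K' * (4 * B.card) ≤ K' * q := by
    calc K' * (4 * B.card) = B.card * (4 * K') := by ring
      _ ≤ K' * q := h3
  exact Nat.le_of_mul_le_mul_left h4 hK'

theorem goalE1 : GoalSUP → GoalFIB → GoalCHAIN → GoalE1 := by
  intro hSUP hFIB hCHAIN V _ H k K' q M ℓ S φ0 hK' hclq hS hM hℓ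
  classical
  have hM1 : 1 ≤ M := by
    rw [hM]
    exact Nat.mul_pos (Nat.mul_pos (by norm_num) (Nat.pow_pos (by norm_num)))
      (Nat.pow_pos (by omega))
  have hout : ∀ (c : Fin q) (x : {φ : V → Option (Fin q) // Ok H φ ∧ ∀ u, u ∉ S → φ u = φ0 u})
      (φ' : V → Option (Fin q)), er S c φ' = er S c x.1 → ∀ u, u ∉ S → φ' u = φ0 u := by
    intro c x φ' h u hu
    rw [← er_out (c := c) (φ := φ') hu, h, er_out hu]
    exact x.2.2 u hu
  have hfib : ∀ (c : Fin q) (x : {φ : V → Option (Fin q) // Ok H φ ∧ ∀ u, u ∉ S → φ u = φ0 u})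
      (Q : (V → Option (Fin q)) → Prop),
      Nat.card {y : {φ : V → Option (Fin q) // Ok H φ ∧ ∀ u, u ∉ S → φ u = φ0 u} //
        er S c y.1 = er S c x.1 ∧ Q y.1} =
      Nat.card {φ' // (Ok H φ' ∧ er S c φ' = er S c x.1) ∧ Q φ'} := by
    intro c x Q
    refine Nat.card_congr
      { toFun := fun y => ⟨y.1.1, ⟨y.1.2.1, y.2.1⟩, y.2.2⟩
        invFun := fun z => ⟨⟨z.1, z.2.1.1, hout c x z.1 z.2.1.2⟩, z.2.1.2, z.2.2⟩
        left_inv := fun _ => rfl
        right_inv := fun _ => rfl }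
  have hfib0 : ∀ (c : Fin q) (x : {φ : V → Option (Fin q) // Ok H φ ∧ ∀ u, u ∉ S → φ u = φ0 u}),
      Nat.card {y : {φ : V → Option (Fin q) // Ok H φ ∧ ∀ u, u ∉ S → φ u = φ0 u} //
        er S c y.1 = er S c x.1} =
      Nat.card {φ' // Ok H φ' ∧ er S c φ' = er S c x.1} := by
    intro c x
    refine Nat.card_congr
      { toFun := fun y => ⟨y.1.1, y.1.2.1, y.2⟩
        invFun := fun z => ⟨⟨z.1, z.2.1, hout c x z.1 z.2.2⟩, z.2.2⟩
        left_inv := fun _ => rfl
        right_inv := fun _ => rfl }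
  have key := hCHAIN {φ : V → Option (Fin q) // Ok H φ ∧ ∀ u, u ∉ S → φ u = φ0 u}
    (V → Option (Fin q)) q M ℓ (fun c φ => er S c φ.1)
    (fun c φ => Nat.card {φ' // Ok H φ' ∧ er S c φ' = er S c φ.1} ≤ M)
    (fun c φ => Em S c φ.1)
    (fun c φ => Nat.card {u // u ∈ S ∧ φ.1 u = some c} < 4 * K')
    hM1 hℓ ?_ ?_ ?_ ?_ ?_
  · have e1 : Nat.card {x : {φ : V → Option (Fin q) // Ok H φ ∧ ∀ u, u ∉ S → φ u = φ0 u} //
        Nat.card {c // Em S c x.1} < ℓ} =
        Nat.card {φ : V → Option (Fin q) // (Ok H φ ∧ ∀ u, u ∉ S → φ u = φ0 u) ∧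
          Nat.card {c // Em S c φ} < ℓ} :=
      Nat.card_congr (Equiv.subtypeSubtypeEquivSubtypeInter
        (fun φ : V → Option (Fin q) => Ok H φ ∧ ∀ u, u ∉ S → φ u = φ0 u)
        (fun φ => Nat.card {c // Em S c φ} < ℓ))
    rw [← e1, Nat.card_eq_fintype_card (α := {φ : V → Option (Fin q) //
      Ok H φ ∧ ∀ u, u ∉ S → φ u = φ0 u})]
    exact key
  · intro c x y h hT
    show Nat.card {φ' // Ok H φ' ∧ er S c φ' = er S c y.1} ≤ M
    have h' : er S c x.1 = er S c y.1 := h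
    rw [← h']
    exact hT
  · intro c c' x y hcc h
    have h' : er S c x.1 = er S c y.1 := h
    refine ⟨fun hE u hu hy => hE u hu ((er_some_of_eq hcc h' u).2 hy), fun hs => ?_⟩
    have e : Nat.card {u // u ∈ S ∧ y.1 u = some c'} = Nat.card {u // u ∈ S ∧ x.1 u = some c'} :=
      Nat.card_congr (Equiv.subtypeEquivRight fun u =>
        ⟨fun h2 => ⟨h2.1, (er_some_of_eq hcc h' u).2 h2.2⟩,
          fun h2 => ⟨h2.1, (er_some_of_eq hcc h' u).1 h2.2⟩⟩)
    show Nat.card {u // u ∈ S ∧ y.1 u = some c'} < 4 * K'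
    rw [e]
    exact hs
  · intro c x hT
    have h3 := (hFIB V H q S c x.1 x.2.1).2.2.1
    show Nat.card {y : {φ : V → Option (Fin q) // Ok H φ ∧ ∀ u, u ∉ S → φ u = φ0 u} //
        er S c y.1 = er S c x.1} ≤ M * Nat.card {y : {φ : V → Option (Fin q) //
          Ok H φ ∧ ∀ u, u ∉ S → φ u = φ0 u} // er S c y.1 = er S c x.1 ∧ Em S c y.1}
    rw [hfib c x (fun φ => Em S c φ), hfib0 c x, h3, mul_one]
    exact hT
  · intro c x hT
    show 16 * Nat.card {y : {φ : V → Option (Fin q) //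
          Ok H φ ∧ ∀ u, u ∉ S → φ u = φ0 u} // er S c y.1 = er S c x.1 ∧
            Nat.card {u // u ∈ S ∧ y.1 u = some c} < 4 * K'} ≤
      Nat.card {y : {φ : V → Option (Fin q) // Ok H φ ∧ ∀ u, u ∉ S → φ u = φ0 u} //
        er S c y.1 = er S c x.1}
    rw [hfib c x (fun φ => Nat.card {u // u ∈ S ∧ φ u = some c} < 4 * K'), hfib0 c x]
    have h1 := (hFIB V H q S c x.1 x.2.1).1
    have h2 := (hFIB V H q S c x.1 x.2.1).2.1 (4 * K')
    have h3 := hSUP V H k (2 * (4 * K')) (Fr H S c x.1) (fun T _ hT => hclq T hT)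
    have hT' : ¬ Nat.card {φ' // Ok H φ' ∧ er S c φ' = er S c x.1} ≤ M := hT
    exact arith hM (not_le.1 hT') h2 (le_trans h3 (Nat.mul_le_mul_left _ h1))
  · intro x
    exact few hK' hS x.1

end Pool.Agent.Helper35.Sey2
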