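import Pool.Agent.Helper63.Sey2.Goals

/-!
# Packet SEY2-LINK2 (MP_b6b2d3_co)
-/

set_option autoImplicit false

namespace Pool.Agent.Helper35.Sey2

open Pool.Agent.Helper63.Sey2

/-- `exp (-2 y) ≤ 1 - y` for `0 ≤ y ≤ 1 / 2` -/
theorem exp_le {y : ℝ} (h0 : 0 ≤ y) (h1 : y ≤ 1 / 2) : Real.exp (-(2 * y)) ≤ 1 - y := by
  have h2 : 1 + 2 * y ≤ Real.exp (2 * y) := by
    have := Real.add_one_le_exp (2 * y)
    linarith
  have h3 : 0 < 1 + 2 * y := by linarith
  rw [Real.exp_neg]
  calc (Real.exp (2 * y))⁻¹ ≤ (1 + 2 * y)⁻¹ := inv_anti₀ h3 h2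
    _ ≤ 1 - y := by
      rw [inv_le_iff_one_le_mul₀ h3]
      nlinarith

theorem goalLINK2 : GoalLINK → GoalLINK2 := by
  intro hLINK A
  classical
  set c : ℕ := ⌈2 * Real.exp (4096 * A)⌉₊ + 2 with hc
  refine ⟨c, by omega, ?_⟩
  intro V _ H s P Q hs hP hQ hE
  set t := A * s with ht
  set x := c * t with hx
  rcases Nat.eq_zero_or_pos t with h0 | h0
  · refine ⟨∅, ∅, by simp, by simp, by simp [h0], by simp [h0], by simp⟩
  have hc2 : 2 ≤ c := by omega
  have hx0 : 0 < x := Nat.mul_pos (by omega) h0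
  have hspos : 0 < s := by omega
  set d := 1024 * x / s with hd
  have hds : d * s ≤ 1024 * x := Nat.div_mul_le_self _ _
  have hdlt : 1024 * x < (d + 1) * s := by
    have := Nat.lt_div_mul_add (a := 1024 * x) hspos
    calc 1024 * x < 1024 * x / s * s + s := this
      _ = (d + 1) * s := by rw [hd]; ring
  have h2d : 2 * d ≤ x := by
    have h1 : d * 4096 ≤ 1024 * x := le_trans (Nat.mul_le_mul_left _ hs) hds
    omega
  have h2t : 2 * t ≤ x := Nat.mul_le_mul_right _ hc2
  set Q' : Finset V := Q.filter fun w => Nat.card {u // u ∈ P ∧ H.Adj w u} ≤ d with hQ'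
  set Q2 : Finset V := Q.filter fun w => ¬ Nat.card {u // u ∈ P ∧ H.Adj w u} ≤ d with hQ2
  have hsplit : Q'.card + Q2.card = x := by
    rw [hQ', hQ2, Finset.card_filter_add_card_filter_not, hQ]
  have hcards : ∀ w, Nat.card {u // u ∈ P ∧ H.Adj w u} = (P.filter fun u => H.Adj w u).card := by
    intro w
    rw [Nat.card_eq_fintype_card, Fintype.card_subtype]
    congr 1
    ext u
    simp
  have hcardE : Nat.card {p : V × V // p.1 ∈ P ∧ p.2 ∈ Q ∧ H.Adj p.1 p.2} =
      ∑ w ∈ Q, (P.filter fun u => H.Adj w u).card := by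
    rw [Nat.card_eq_fintype_card, Fintype.card_subtype, ← Finset.card_sigma]
    refine Finset.card_bij' (fun p _ => (⟨p.2, p.1⟩ : (_ : V) × V)) (fun z _ => (z.2, z.1))
      ?_ ?_ ?_ ?_
    · intro p hp
      simp only [Finset.mem_filter, Finset.mem_univ, true_and, Finset.mem_sigma] at hp ⊢
      exact ⟨hp.2.1, hp.1, hp.2.2.symm⟩
    · intro z hz
      simp only [Finset.mem_filter, Finset.mem_univ, true_and, Finset.mem_sigma] at hz ⊢
      exact ⟨hz.2.1, hz.1, hz.2.2.symm⟩
    · intro p _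
      rfl
    · intro z _
      rfl
  have hQ2b : Q2.card * (d + 1) ≤ ∑ w ∈ Q, (P.filter fun u => H.Adj w u).card := by
    calc Q2.card * (d + 1) ≤ ∑ w ∈ Q2, (P.filter fun u => H.Adj w u).card := by
          rw [← smul_eq_mul]
          refine Finset.card_nsmul_le_sum _ _ _ fun w hw => ?_
          rw [hQ2, Finset.mem_filter, hcards] at hw
          omega
      _ ≤ ∑ w ∈ Q, (P.filter fun u => H.Adj w u).card :=
          Finset.sum_le_sum_of_subset (Finset.filter_subset _ _)
  rw [hcardE] at hE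
  have hQ2x : 2 * Q2.card ≤ x := by
    have h1 : Q2.card * (1024 * x) ≤ 512 * x ^ 2 := by
      calc Q2.card * (1024 * x) ≤ Q2.card * ((d + 1) * s) := Nat.mul_le_mul_left _ hdlt.le
        _ = s * (Q2.card * (d + 1)) := by ring
        _ ≤ s * ∑ w ∈ Q, (P.filter fun u => H.Adj w u).card := Nat.mul_le_mul_left _ hQ2b
        _ ≤ 512 * x ^ 2 := hE
    have h2 : x * (2 * Q2.card) ≤ x * x := by nlinarith
    exact Nat.le_of_mul_le_mul_left h2 hx0
  have hQ'x : x ≤ 2 * Q'.card := by omega
  obtain ⟨R, L, hRP, hLQ, hRt, hRL, hL⟩ := hLINK V H P Q' t d (by rw [hP]; exact h2t)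
    (by rw [hP]; exact h2d) (fun w hw => by
      rw [hQ', Finset.mem_filter] at hw
      exact hw.2)
  have hLt : t ≤ L.card := by
    rw [hP] at hL
    have hxr : (0 : ℝ) < x := by exact_mod_cast hx0
    have hsr : (0 : ℝ) < s := by exact_mod_cast hspos
    have hsr' : (4096 : ℝ) ≤ s := by exact_mod_cast hs
    have hy : 2 * (d : ℝ) / x ≤ 2048 / s := by
      rw [div_le_div_iff₀ hxr hsr]
      have : (d : ℝ) * s ≤ 1024 * x := by exact_mod_cast hds
      nlinarith
    have hy0 : 0 ≤ 2 * (d : ℝ) / x := by positivity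
    have hy1 : 2 * (d : ℝ) / x ≤ 1 / 2 := by
      refine le_trans hy ?_
      rw [div_le_div_iff₀ hsr (by norm_num)]
      linarith
    have h1 : Real.exp (-(4096 * A)) ≤ (1 - 2 * (d : ℝ) / x) ^ t := by
      calc Real.exp (-(4096 * A)) = Real.exp (-(2 * (2048 / s))) ^ t := by
            rw [← Real.exp_nat_mul]
            congr 1
            rw [ht]
            push_cast
            field_simp
            ring
        _ ≤ Real.exp (-(2 * (2 * (d : ℝ) / x))) ^ t := by
            refine pow_le_pow_left₀ (Real.exp_pos _).le (Real.exp_le_exp.2 ?_) _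
            linarith
        _ ≤ (1 - 2 * (d : ℝ) / x) ^ t :=
            pow_le_pow_left₀ (Real.exp_pos _).le (exp_le hy0 hy1) _
    have h2 : (x : ℝ) / 2 ≤ Q'.card := by
      have : (x : ℝ) ≤ 2 * Q'.card := by exact_mod_cast hQ'x
      linarith
    have h3 : 2 * Real.exp (4096 * A) ≤ c := by
      rw [hc]
      push_cast
      have := Nat.le_ceil (2 * Real.exp (4096 * (A : ℝ)))
      linarith
    have h4 : (t : ℝ) ≤ L.card := by
      refine le_trans ?_ hL
      calc (t : ℝ) = Real.exp (-(4096 * A)) * ((2 * Real.exp (4096 * A)) * t / 2) := by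
            have : Real.exp (-(4096 * (A : ℝ))) * Real.exp (4096 * A) = 1 := by
              rw [← Real.exp_add]
              simp
            linear_combination (-(t : ℝ)) * this
        _ ≤ Real.exp (-(4096 * A)) * ((c : ℝ) * t / 2) := by
            refine mul_le_mul_of_nonneg_left ?_ (Real.exp_pos _).le
            have ht0 : (0 : ℝ) ≤ t := Nat.cast_nonneg _
            nlinarith
        _ = Real.exp (-(4096 * A)) * ((x : ℝ) / 2) := by
            rw [hx]
            push_cast
            ring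
        _ ≤ (1 - 2 * (d : ℝ) / x) ^ t * Q'.card := by
            refine mul_le_mul h1 h2 (by positivity) ?_
            exact pow_nonneg (by linarith) _
    exact_mod_cast h4
  obtain ⟨L', hL'L, hL't⟩ := Finset.exists_subset_card_eq hLt
  exact ⟨R, L', hRP, hL'L.trans (hLQ.trans (Finset.filter_subset _ _)), hRt, hL't,
    fun u hu w hw => hRL u hu w (hL'L hw)⟩

end Pool.Agent.Helper35.Sey2
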